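import Pool.Agent.K6.H22.PG.Count
import Pool.Agent.K6.H22.PG.Vis
import Pool.Agent.K6.H22.PG.Fc
import Pool.Agent.K6.H22.PG.Sec
import Pool.Agent.K6.H22.PG.Tri
import Pool.Agent.K6.H22.PG.Eul
import Pool.Agent.K6.H22.PG.Out
import Pool.Agent.K6.H22.PG.Flip

/-!
The maximal number of mixed diagonals of a simple `n`-gon: `⌊(n - 3)² / 2⌋` for polygons without
straight angles, `(n - 2)(n - 3) / 2` when straight angles are allowed. The lower bounds are in
`ManyMixed`; the upper bound without straight angles is new: it comes from a maximal plane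
straight-line graph on the vertices which contains the polygon and from the flips of its edges.
-/

set_option autoImplicit false

namespace Pool.Agent.Results.MP_773b78_co.ExactMaximum

open Pool.Agent.Results.MP_773b78_co.ManyMixed (IsSimple NoStraight numMixed)
open Pool.Agent.K6.H22.PG

theorem main : S_MAIN :=
  have hv := piece_VIS
  have hf := piece_FACE hv
  have h1 := piece_SEC1
  have h2 := piece_SEC2
  have h3 := piece_SEC3 h1 h2
  have h4 := piece_SEC4 h1 h2
  have o1 := piece_OUT1 h2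
  piece_MAIN hf (piece_EUL hv hf h3) (piece_BAD h1 h2) o1 (piece_OUT2 o1)
    (piece_FLIP h4 piece_TRI)

/-- The exact maximum of the number of mixed diagonals of a simple `n`-gon. -/
theorem result : ∀ n : ℕ, 4 ≤ n →
    IsGreatest {k | ∃ v : ℕ → ℝ × ℝ, IsSimple n v ∧ NoStraight n v ∧ numMixed n v = k}
      ((n - 3) ^ 2 / 2) ∧
    IsGreatest {k | ∃ v : ℕ → ℝ × ℝ, IsSimple n v ∧ numMixed n v = k}
      ((n - 2) * (n - 3) / 2) := by
  intro n hn
  have h3 : 3 ≤ n := by omega
  have hE : S_EUL := piece_EUL piece_VIS (piece_FACE piece_VIS)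
    (piece_SEC3 piece_SEC1 piece_SEC2)
  obtain ⟨⟨v, hv1, hv2, hv3⟩, ⟨w, hw1, hw2⟩⟩ :=
    Pool.Agent.Results.MP_773b78_co.ManyMixed.result n hn
  refine ⟨⟨⟨v, hv1, hv2, le_antisymm (upper main h3 hv1 hv2) hv3⟩, ?_⟩,
    ⟨⟨w, hw1, le_antisymm (upper2 hE piece_SEC2 h3 hw1) hw2⟩, ?_⟩⟩
  · rintro k ⟨u, hu1, hu2, rfl⟩
    exact upper main h3 hu1 hu2
  · rintro k ⟨u, hu1, rfl⟩
    exact upper2 hE piece_SEC2 h3 hu1

end Pool.Agent.Results.MP_773b78_co.ExactMaximum
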